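import Mathlib

set_option autoImplicit false

/-!
Bookkeeping for commutator width relative to a normal subgroup.

`CK K n`: products of `n` commutators of elements of `K`.
`R K S M`: elements `⁅s₁, m₁⁆ ⋯ ⁅s_r, m_r⁆ κ` with `S = [s₁, …, s_r]`, `m_i ∈ K`, `κ ∈ CK K M`.
-/

namespace Pool.Agent.CW71

open scoped commutatorElement

variable {G : Type*} [Group G]

/-- products of `n` commutators of elements of `K` -/
def CK (K : Subgroup G) : ℕ → Set G
  | 0 => {1}
  | n + 1 => {g | ∃ p ∈ K, ∃ q ∈ K, ∃ y ∈ CK K n, g = ⁅p, q⁆ * y}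

/-- elements `⁅s₁, m₁⁆ ⋯ ⁅s_r, m_r⁆ κ` with `m_i ∈ K` and `κ ∈ CK K M` -/
def R (K : Subgroup G) : List G → ℕ → Set G
  | [], M => CK K M
  | s :: S, M => {g | ∃ m ∈ K, ∃ y ∈ R K S M, g = ⁅s, m⁆ * y}

variable {K : Subgroup G}

lemma one_mem_CK (n : ℕ) : (1 : G) ∈ CK K n := by
  induction n with
  | zero => exact rfl
  | succ n ih => exact ⟨1, K.one_mem, 1, K.one_mem, 1, ih, by simp⟩

lemma CK_mul {n m : ℕ} {x y : G} (hx : x ∈ CK K n) (hy : y ∈ CK K m) :
    x * y ∈ CK K (n + m) := by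
  induction n generalizing x with
  | zero =>
    have : x = 1 := hx
    rw [this, one_mul, Nat.zero_add]; exact hy
  | succ n ih =>
    obtain ⟨p, hp, q, hq, z, hz, rfl⟩ := hx
    rw [show n + 1 + m = (n + m) + 1 by ring]
    exact ⟨p, hp, q, hq, z * y, ih hz, by rw [mul_assoc]⟩

lemma CK_mono {n m : ℕ} (h : n ≤ m) {x : G} (hx : x ∈ CK K n) : x ∈ CK K m := by
  obtain ⟨k, rfl⟩ := Nat.exists_eq_add_of_le h
  have := CK_mul hx (one_mem_CK (K := K) k)
  rwa [mul_one] at this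

lemma comm_mem_CK {p q : G} (hp : p ∈ K) (hq : q ∈ K) : ⁅p, q⁆ ∈ CK K 1 :=
  ⟨p, hp, q, hq, 1, rfl, by simp⟩

lemma CK_sub {n : ℕ} {x : G} (hx : x ∈ CK K n) : x ∈ K := by
  induction n generalizing x with
  | zero =>
    have : x = 1 := hx
    rw [this]; exact K.one_mem
  | succ n ih =>
    obtain ⟨p, hp, q, hq, z, hz, rfl⟩ := hx
    refine K.mul_mem ?_ (ih hz)
    rw [commutatorElement_def]
    exact K.mul_mem (K.mul_mem (K.mul_mem hp hq) (K.inv_mem hp)) (K.inv_mem hq)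

lemma CK_split {n m : ℕ} {x : G} (hx : x ∈ CK K (n + m)) :
    ∃ y ∈ CK K n, ∃ z ∈ CK K m, x = y * z := by
  induction n generalizing x with
  | zero => exact ⟨1, rfl, x, by rwa [Nat.zero_add] at hx, by simp⟩
  | succ n ih =>
    rw [show n + 1 + m = (n + m) + 1 by ring] at hx
    obtain ⟨p, hp, q, hq, z, hz, rfl⟩ := hx
    obtain ⟨y, hy, w, hw, rfl⟩ := ih hz
    exact ⟨⁅p, q⁆ * y, ⟨p, hp, q, hq, y, hy, rfl⟩, w, hw, by rw [mul_assoc]⟩

lemma CK_conj [hK : K.Normal] {n : ℕ} {x : G} (hx : x ∈ CK K n) (g : G) :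
    g * x * g⁻¹ ∈ CK K n := by
  induction n generalizing x with
  | zero =>
    have : x = 1 := hx
    rw [this]; simp; exact rfl
  | succ n ih =>
    obtain ⟨p, hp, q, hq, z, hz, rfl⟩ := hx
    refine ⟨g * p * g⁻¹, hK.conj_mem p hp g, g * q * g⁻¹, hK.conj_mem q hq g,
      g * z * g⁻¹, ih hz, ?_⟩
    simp only [commutatorElement_def]; group

lemma comm_mem_of_normal [hK : K.Normal] (g : G) {k : G} (hk : k ∈ K) : ⁅g, k⁆ ∈ K := by
  rw [commutatorElement_def]
  exact K.mul_mem (hK.conj_mem k hk g) (K.inv_mem hk)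

lemma R_sub [hK : K.Normal] {S : List G} {M : ℕ} {x : G} (hx : x ∈ R K S M) : x ∈ K := by
  induction S generalizing x with
  | nil => exact CK_sub hx
  | cons s S ih =>
    obtain ⟨m, hm, y, hy, rfl⟩ := hx
    exact K.mul_mem (comm_mem_of_normal s hm) (ih hy)

lemma one_mem_R (S : List G) (M : ℕ) : (1 : G) ∈ R K S M := by
  induction S with
  | nil => exact one_mem_CK M
  | cons s S ih => exact ⟨1, K.one_mem, 1, ih, by simp⟩

lemma R_mul_CK {S : List G} {M n : ℕ} {x κ : G} (hx : x ∈ R K S M) (hκ : κ ∈ CK K n) :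
    x * κ ∈ R K S (M + n) := by
  induction S generalizing x with
  | nil => exact CK_mul hx hκ
  | cons s S ih =>
    obtain ⟨m, hm, y, hy, rfl⟩ := hx
    exact ⟨m, hm, y * κ, ih hy, by rw [mul_assoc]⟩

lemma R_mono {S : List G} {M M' : ℕ} (h : M ≤ M') {x : G} (hx : x ∈ R K S M) :
    x ∈ R K S M' := by
  obtain ⟨k, rfl⟩ := Nat.exists_eq_add_of_le h
  have := R_mul_CK hx (one_mem_CK (K := K) k)
  rwa [mul_one] at this

lemma CK_mul_R [hK : K.Normal] {S : List G} {M n : ℕ} {x κ : G} (hκ : κ ∈ CK K n)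
    (hx : x ∈ R K S M) : κ * x ∈ R K S (M + n) := by
  have h1 := R_mul_CK hx (CK_conj hκ x⁻¹)
  have : x * (x⁻¹ * κ * x⁻¹⁻¹) = κ * x := by group
  rwa [this] at h1

/-- adding one generator commutator on the left -/
lemma R_gen [hK : K.Normal] {S : List G} {M : ℕ} {s m x : G} (hs : s ∈ S) (hm : m ∈ K)
    (hx : x ∈ R K S M) : ⁅s, m⁆ * x ∈ R K S (M + S.length) := by
  induction S generalizing x M with
  | nil => simp at hs
  | cons s₀ S ih =>
    obtain ⟨m₀, hm₀, y, hy, rfl⟩ := hx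
    by_cases h : s = s₀
    · subst h
      -- merge
      have h1 : ⁅m, ⁅s, m₀⁆⁻¹⁆ ∈ CK K 1 :=
        comm_mem_CK hm (K.inv_mem (comm_mem_of_normal s hm₀))
      refine ⟨m * m₀, K.mul_mem hm hm₀, ⁅m, ⁅s, m₀⁆⁻¹⁆ * y, ?_, ?_⟩
      · refine R_mono ?_ (CK_mul_R h1 hy)
        simp
      · simp only [commutatorElement_def]; group
    · have hs' : s ∈ S := by
        rcases List.mem_cons.1 hs with h' | h'
        · exact absurd h' h
        · exact h'
      have h1 : ⁅(⁅s, m⁆)⁻¹, (⁅s₀, m₀⁆)⁻¹⁆ ∈ CK K 1 :=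
        comm_mem_CK (K.inv_mem (comm_mem_of_normal s hm)) (K.inv_mem (comm_mem_of_normal s₀ hm₀))
      refine ⟨m₀, hm₀, ⁅s, m⁆ * (⁅(⁅s, m⁆)⁻¹, (⁅s₀, m₀⁆)⁻¹⁆ * y), ?_, ?_⟩
      · have := ih hs' (CK_mul_R h1 hy)
        refine R_mono ?_ this
        simp only [List.length_cons]; omega
      · simp only [commutatorElement_def]; group

lemma gen_mem_R [hK : K.Normal] {S : List G} {s m : G} (hs : s ∈ S) (hm : m ∈ K) :
    ⁅s, m⁆ ∈ R K S S.length := by
  have := R_gen hs hm (one_mem_R (K := K) S 0)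
  rw [mul_one] at this
  refine R_mono ?_ this
  simp

lemma R_mul_aux [hK : K.Normal] {S : List G} (T : List G) (hT : ∀ s ∈ T, s ∈ S) {M M' : ℕ}
    {x y : G} (hx : x ∈ R K T M) (hy : y ∈ R K S M') :
    x * y ∈ R K S (M + M' + T.length * S.length) := by
  induction T generalizing x with
  | nil =>
    have := CK_mul_R (n := M) (κ := x) hx hy
    refine R_mono ?_ this
    simp; omega
  | cons s T ih =>
    obtain ⟨m, hm, z, hz, rfl⟩ := hx
    have h1 := ih (fun s' hs' => hT s' (List.mem_cons_of_mem _ hs')) hz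
    have h2 := R_gen (hT s (List.mem_cons_self)) hm h1
    rw [mul_assoc]
    refine R_mono ?_ h2
    simp only [List.length_cons]
    nlinarith

lemma R_mul [hK : K.Normal] {S : List G} {M M' : ℕ} {x y : G} (hx : x ∈ R K S M)
    (hy : y ∈ R K S M') : x * y ∈ R K S (M + M' + S.length * S.length) :=
  R_mul_aux S (fun _ h => h) hx hy

/-- commutator of a word of length `l.length` with an element of `K` -/
lemma R_comm_word [hK : K.Normal] {S : List G} (l : List G) (hl : ∀ s ∈ l, s ∈ S) {k : G}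
    (hk : k ∈ K) : ⁅l.prod, k⁆ ∈ R K S (l.length * (S.length * S.length + 2 * S.length)) := by
  induction l with
  | nil => simpa using one_mem_R (K := K) S 0
  | cons s l ih =>
    have ih' := ih (fun s' hs' => hl s' (List.mem_cons_of_mem _ hs'))
    have hs : s ∈ S := hl s List.mem_cons_self
    have h1 := R_mul ih' (gen_mem_R hs hk)
    have h2 := R_gen hs (comm_mem_of_normal l.prod hk) h1
    have h3 : ⁅(s :: l).prod, k⁆ = ⁅s, ⁅l.prod, k⁆⁆ * (⁅l.prod, k⁆ * ⁅s, k⁆) := by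
      simp only [List.prod_cons, commutatorElement_def]; group
    rw [h3]
    refine R_mono ?_ h2
    simp only [List.length_cons]
    nlinarith

/-- conjugation by an element of `K` costs one commutator -/
lemma R_conj_K [hK : K.Normal] {S : List G} {M : ℕ} {x k : G} (hx : x ∈ R K S M) (hk : k ∈ K) :
    k * x * k⁻¹ ∈ R K S (M + 1) := by
  have h1 : ⁅k, x⁆ ∈ CK K 1 := comm_mem_CK hk (R_sub hx)
  have h2 := CK_mul_R h1 hx
  have : ⁅k, x⁆ * x = k * x * k⁻¹ := by simp only [commutatorElement_def]; group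
  rwa [this] at h2

/-- `R` exhausts `[G, K]` when `S` generates `G` as a monoid -/
lemma exists_R [hK : K.Normal] {S : List G} (hS : ∀ g : G, ∃ l : List G, (∀ s ∈ l, s ∈ S) ∧ l.prod = g)
    {x : G} (hx : x ∈ ⁅(⊤ : Subgroup G), K⁆) : ∃ M, x ∈ R K S M := by
  have key : ∀ g k : G, k ∈ K → ∃ M, ⁅g, k⁆ ∈ R K S M := by
    intro g k hk
    obtain ⟨l, hl, rfl⟩ := hS g
    exact ⟨_, R_comm_word l hl hk⟩
  rw [Subgroup.commutator_def] at hx
  induction hx using Subgroup.closure_induction'' with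
  | mem x hx =>
    obtain ⟨g, _, k, hk, rfl⟩ := hx
    exact key g k hk
  | inv_mem x hx =>
    obtain ⟨g, _, k, hk, rfl⟩ := hx
    have : ⁅g, k⁆⁻¹ = ⁅g⁻¹, g * k * g⁻¹⁆ := by simp only [commutatorElement_def]; group
    rw [this]
    exact key _ _ (hK.conj_mem k hk g)
  | one => exact ⟨0, one_mem_R S 0⟩
  | mul x y _ _ hx hy =>
    obtain ⟨M, hM⟩ := hx
    obtain ⟨M', hM'⟩ := hy
    exact ⟨_, R_mul hM hM'⟩

end Pool.Agent.CW71
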