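import Mathlib

set_option autoImplicit false

/-!
The wreath product of a group with the group of order two, as pairs of sections and a switch.
-/

namespace Pool.Agent.CW71

/-- Elements of the wreath product of `A` with the group of order two. -/
@[ext] structure Wr (A : Type*) where
  sec : Bool → A
  sw : Bool

namespace Wr

set_option linter.unusedSectionVars false

variable {A B : Type*} [Group A] [Group B]

instance : Mul (Wr A) := ⟨fun g h => ⟨fun x => g.sec (xor x h.sw) * h.sec x, xor g.sw h.sw⟩⟩
instance : One (Wr A) := ⟨⟨fun _ => 1, false⟩⟩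
instance : Inv (Wr A) := ⟨fun g => ⟨fun x => (g.sec (xor x g.sw))⁻¹, g.sw⟩⟩

@[simp] lemma mul_sec (g h : Wr A) (x : Bool) : (g * h).sec x = g.sec (xor x h.sw) * h.sec x := rfl
@[simp] lemma mul_sw (g h : Wr A) : (g * h).sw = xor g.sw h.sw := rfl
@[simp] lemma one_sec (x : Bool) : (1 : Wr A).sec x = 1 := rfl
@[simp] lemma one_sw : (1 : Wr A).sw = false := rfl
@[simp] lemma inv_sec (g : Wr A) (x : Bool) : (g⁻¹).sec x = (g.sec (xor x g.sw))⁻¹ := rfl
@[simp] lemma inv_sw (g : Wr A) : (g⁻¹).sw = g.sw := rfl

instance : Group (Wr A) where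
  mul_assoc g h k := by
    apply Wr.ext
    · funext x
      simp only [mul_sec, mul_sw]
      rw [mul_assoc]
      congr 2
      cases x <;> cases h.sw <;> cases k.sw <;> rfl
    · simp
  one_mul g := by
    apply Wr.ext
    · funext x; simp
    · simp
  mul_one g := by
    apply Wr.ext
    · funext x; simp
    · simp
  inv_mul_cancel g := by
    apply Wr.ext
    · funext x
      simp
    · simp

/-- the map induced by a homomorphism -/
def map (f : A →* B) : Wr A →* Wr B where
  toFun g := ⟨fun x => f (g.sec x), g.sw⟩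
  map_one' := by
    apply Wr.ext
    · funext x; simp
    · simp
  map_mul' g h := by
    apply Wr.ext
    · funext x; simp
    · simp

@[simp] lemma map_sec (f : A →* B) (g : Wr A) (x : Bool) : (map f g).sec x = f (g.sec x) := rfl
@[simp] lemma map_sw (f : A →* B) (g : Wr A) : (map f g).sw = g.sw := rfl

/-- the element with sections `x`, `y` and no switch -/
def pr (x y : A) : Wr A := ⟨fun b => if b then y else x, false⟩

@[simp] lemma pr_sec_false (x y : A) : (pr x y).sec false = x := rfl
@[simp] lemma pr_sec_true (x y : A) : (pr x y).sec true = y := rfl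
@[simp] lemma pr_sw (x y : A) : (pr x y).sw = false := rfl

lemma pr_mul (x y x' y' : A) : pr x y * pr x' y' = pr (x * x') (y * y') := by
  apply Wr.ext
  · funext b; cases b <;> simp
  · simp

lemma pr_inv (x y : A) : (pr x y)⁻¹ = pr x⁻¹ y⁻¹ := by
  apply Wr.ext
  · funext b; cases b <;> simp
  · simp

lemma pr_one : pr (1 : A) 1 = 1 := by
  apply Wr.ext
  · funext b; cases b <;> simp
  · simp

lemma pr_pow (x y : A) (n : ℕ) : (pr x y) ^ n = pr (x ^ n) (y ^ n) := by
  induction n with
  | zero => simp [pr_one]
  | succ n ih => rw [pow_succ, ih, pr_mul, pow_succ, pow_succ]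

lemma pr_zpow (x y : A) (n : ℤ) : (pr x y) ^ n = pr (x ^ n) (y ^ n) := by
  cases n with
  | ofNat n => simp [pr_pow]
  | negSucc n => simp [zpow_negSucc, pr_pow, pr_inv]

lemma map_pr (f : A →* B) (x y : A) : map f (pr x y) = pr (f x) (f y) := by
  apply Wr.ext
  · funext b; cases b <;> simp
  · simp

/-- the switch -/
def swp : Wr A := ⟨fun _ => 1, true⟩

@[simp] lemma swp_sec (x : Bool) : (swp : Wr A).sec x = 1 := rfl
@[simp] lemma swp_sw : (swp : Wr A).sw = true := rfl

lemma swp_mul_swp : (swp : Wr A) * swp = 1 := by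
  apply Wr.ext
  · funext b; simp
  · simp

lemma swp_inv : (swp : Wr A)⁻¹ = swp := inv_eq_of_mul_eq_one_right swp_mul_swp

lemma swp_conj (x y : A) : swp * pr x y * swp⁻¹ = pr y x := by
  rw [swp_inv]
  apply Wr.ext
  · funext b; cases b <;> simp
  · simp

lemma eq_pr {g : Wr A} (h : g.sw = false) : g = pr (g.sec false) (g.sec true) := by
  apply Wr.ext
  · funext b; cases b <;> simp
  · simp [h]

end Wr

end Pool.Agent.CW71
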