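import Mathlib
import Pool.Agent.CW71.RM
import Pool.Agent.CW71.Wr

set_option autoImplicit false

/-!
The free product `F` of the group of order two and the four group, its wreath recursions `Φ t`
(`t` in `Fin 3`), the normal subgroups `K p` and the branching of `K t` inside `K p`.
-/

namespace Pool.Agent.CW71

open scoped commutatorElement
open Wr

/-- the relations: the generators are involutions, the product of the last three is trivial -/
def rels : Set (FreeGroup (Option (Fin 3))) :=
  {r | ∃ s, r = FreeGroup.of s * FreeGroup.of s} ∪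
    {FreeGroup.of (some 0) * FreeGroup.of (some 1) * FreeGroup.of (some 2)}

/-- the free product of the group of order two and the four group -/
abbrev F := PresentedGroup rels

/-- the generator `a` -/
def ga : F := PresentedGroup.of none

/-- the generators of the four group -/
def ge (i : Fin 3) : F := PresentedGroup.of (some i)

section lift

variable {H : Type*} [Group H]

/-- homomorphisms out of `F` -/
def liftF (f : Option (Fin 3) → H) (h : ∀ s, f s * f s = 1)
    (h' : f (some 0) * f (some 1) * f (some 2) = 1) : F →* H :=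
  PresentedGroup.toGroup (f := f) (by
    rintro r (⟨s, rfl⟩ | hr)
    · simpa using h s
    · rw [Set.mem_singleton_iff] at hr
      subst hr
      simpa using h')

@[simp] lemma liftF_a (f : Option (Fin 3) → H) (h : ∀ s, f s * f s = 1)
    (h' : f (some 0) * f (some 1) * f (some 2) = 1) : liftF f h h' ga = f none :=
  PresentedGroup.toGroup.of _

@[simp] lemma liftF_e (f : Option (Fin 3) → H) (h : ∀ s, f s * f s = 1)
    (h' : f (some 0) * f (some 1) * f (some 2) = 1) (i : Fin 3) :
    liftF f h h' (ge i) = f (some i) :=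
  PresentedGroup.toGroup.of _

end lift

lemma of_sq (s : Option (Fin 3)) :
    (PresentedGroup.of s : F) * PresentedGroup.of s = 1 := by
  have h : (FreeGroup.of s * FreeGroup.of s : FreeGroup (Option (Fin 3))) ∈ rels :=
    Or.inl ⟨s, rfl⟩
  have := PresentedGroup.one_of_mem h
  simpa [PresentedGroup.of] using this

lemma ga_sq : ga * ga = 1 := of_sq none

lemma ge_sq (i : Fin 3) : ge i * ge i = 1 := of_sq (some i)

lemma ge_012 : ge 0 * ge 1 * ge 2 = 1 := by
  have h : (FreeGroup.of (some 0) * FreeGroup.of (some 1) * FreeGroup.of (some 2) :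
      FreeGroup (Option (Fin 3))) ∈ rels := Or.inr rfl
  have := PresentedGroup.one_of_mem h
  simpa [PresentedGroup.of, ge] using this

lemma ga_inv : ga⁻¹ = ga := inv_eq_of_mul_eq_one_right ga_sq
lemma ge_inv (i : Fin 3) : (ge i)⁻¹ = ge i := inv_eq_of_mul_eq_one_right (ge_sq i)

lemma ga_sq' (x : F) : ga * (ga * x) = x := by rw [← mul_assoc, ga_sq, one_mul]
lemma ge_sq' (i : Fin 3) (x : F) : ge i * (ge i * x) = x := by rw [← mul_assoc, ge_sq, one_mul]

lemma ge_01 : ge 0 * ge 1 = ge 2 := by
  have h := ge_012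
  rw [← ge_inv 2]
  exact eq_inv_of_mul_eq_one_left h

lemma ge_10 : ge 1 * ge 0 = ge 2 := by
  have h := congrArg (fun x => x⁻¹) ge_01
  simpa [mul_inv_rev, ge_inv] using h

lemma ge_12 : ge 1 * ge 2 = ge 0 := by
  rw [← ge_10, ge_sq']

lemma ge_21 : ge 2 * ge 1 = ge 0 := by
  rw [← ge_01, mul_assoc, ge_sq, mul_one]

lemma ge_02 : ge 0 * ge 2 = ge 1 := by
  rw [← ge_01, ge_sq']

lemma ge_20 : ge 2 * ge 0 = ge 1 := by
  rw [← ge_10, mul_assoc, ge_sq, mul_one]

lemma ge_comm (i j : Fin 3) : ge i * ge j = ge j * ge i := by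
  fin_cases i <;> fin_cases j <;>
    simp [ge_01, ge_10, ge_12, ge_21, ge_02, ge_20]

/-- product of two different involutions of the four group -/
lemma ge_mul {i j k : Fin 3} (h : i ≠ j) (h1 : k ≠ i) (h2 : k ≠ j) : ge i * ge j = ge k := by
  revert h h1 h2
  fin_cases i <;> fin_cases j <;> fin_cases k <;>
    simp [ge_01, ge_10, ge_12, ge_21, ge_02, ge_20]

lemma F_ind_left (P : F → Prop) (h1 : P 1) (ha : ∀ g, P g → P (ga * g))
    (he : ∀ i g, P g → P (ge i * g)) (g : F) : P g := by
  have hs : ∀ (s : Option (Fin 3)) (g : F), P g → P (PresentedGroup.of s * g) := by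
    intro s g hg
    cases s with
    | none => exact ha g hg
    | some i => exact he i g hg
  have hg : g ∈ Subgroup.closure (Set.range (PresentedGroup.of : Option (Fin 3) → F)) := by
    rw [PresentedGroup.closure_range_of]; exact Subgroup.mem_top g
  induction hg using Subgroup.closure_induction_left with
  | one => exact h1
  | mul_left x hx y _ ih =>
    obtain ⟨s, rfl⟩ := hx
    exact hs s y ih
  | inv_mul_cancel x hx y _ ih =>
    obtain ⟨s, rfl⟩ := hx
    have : (PresentedGroup.of s : F)⁻¹ = PresentedGroup.of s :=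
      inv_eq_of_mul_eq_one_right (of_sq s)
    rw [this]
    exact hs s y ih

lemma F_ind_right (P : F → Prop) (h1 : P 1) (ha : ∀ g, P g → P (g * ga))
    (he : ∀ i g, P g → P (g * ge i)) (g : F) : P g := by
  have h := F_ind_left (fun g => P g⁻¹) (by simpa using h1)
    (fun g hg => by
      have := ha _ hg
      rwa [← ga_inv, ← mul_inv_rev] at this)
    (fun i g hg => by
      have := he i _ hg
      rwa [← ge_inv, ← mul_inv_rev] at this) g⁻¹
  simpa using h

/-! ### The wreath recursion -/

/-- the first section of the four group -/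
def al (t i : Fin 3) : F := if i = t then 1 else ga

lemma al_sq (t i : Fin 3) : al t i * al t i = 1 := by
  unfold al; split <;> simp [ga_sq]

lemma al_inv (t i : Fin 3) : (al t i)⁻¹ = al t i := inv_eq_of_mul_eq_one_right (al_sq t i)

/-- the wreath recursion -/
def Phi (t : Fin 3) : F →* Wr F :=
  liftF (fun s => match s with
    | none => swp
    | some i => pr (al t i) (ge i))
    (by
      intro s
      cases s with
      | none => exact swp_mul_swp
      | some i =>
        show pr (al t i) (ge i) * pr (al t i) (ge i) = 1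
        rw [pr_mul, al_sq, ge_sq, pr_one])
    (by
      show pr (al t 0) (ge 0) * pr (al t 1) (ge 1) * pr (al t 2) (ge 2) = 1
      rw [pr_mul, pr_mul, ge_012]
      have : al t 0 * al t 1 * al t 2 = 1 := by
        fin_cases t <;> simp [al, ga_sq]
      rw [this, pr_one])

@[simp] lemma Phi_a (t : Fin 3) : Phi t ga = swp := by simp [Phi]
@[simp] lemma Phi_e (t i : Fin 3) : Phi t (ge i) = pr (al t i) (ge i) := by simp [Phi]

/-! ### The subgroups `K p` -/

/-- the commutator `[a, e_p]` -/
def cc (p : Fin 3) : F := ⁅ga, ge p⁆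

lemma cc_eq (p : Fin 3) : cc p = ga * ge p * ga * ge p := by
  rw [cc, commutatorElement_def, ga_inv, ge_inv]

lemma cc_inv (p : Fin 3) : (cc p)⁻¹ = ge p * ga * ge p * ga := by
  rw [cc_eq]; simp [mul_inv_rev, ga_inv, ge_inv, mul_assoc]

/-- the normal closure of `[a, e_p]` -/
def K (p : Fin 3) : Subgroup F := Subgroup.normalClosure {cc p}

instance (p : Fin 3) : (K p).Normal := Subgroup.normalClosure_normal

lemma cc_mem (p : Fin 3) : cc p ∈ K p := Subgroup.subset_normalClosure rfl

/-- the section `u` of `[a, e_p]` -/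
def uu (t p : Fin 3) : F := ge p * al t p

lemma uu_inv (t p : Fin 3) : (uu t p)⁻¹ = al t p * ge p := by
  rw [uu, mul_inv_rev, al_inv, ge_inv]

lemma Phi_cc (t p : Fin 3) : Phi t (cc p) = pr (uu t p) (uu t p)⁻¹ := by
  have h1 : Phi t (ga * ge p * ga⁻¹) = pr (ge p) (al t p) := by
    rw [map_mul, map_mul, map_inv, Phi_a, Phi_e, swp_conj]
  have h2 : cc p = (ga * ge p * ga⁻¹) * ge p := by rw [cc_eq, ga_inv]
  rw [h2, map_mul, h1, Phi_e, pr_mul, uu_inv, uu]

/-- reduction of the wreath recursion modulo `K t` -/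
def PhiB (t : Fin 3) : F →* Wr (F ⧸ K t) := (Wr.map (QuotientGroup.mk' (K t))).comp (Phi t)

lemma PhiB_apply (t : Fin 3) (g : F) :
    PhiB t g = Wr.map (QuotientGroup.mk' (K t)) (Phi t g) := rfl

section quot

lemma mk_comm (p : Fin 3) (g : F) :
    (QuotientGroup.mk' (K p)) g * (QuotientGroup.mk' (K p)) (ge p) =
      (QuotientGroup.mk' (K p)) (ge p) * (QuotientGroup.mk' (K p)) g := by
  have key : ∀ x y : F, ⁅x, y⁆ ∈ K p → (QuotientGroup.mk' (K p)) x * (QuotientGroup.mk' (K p)) y =
      (QuotientGroup.mk' (K p)) y * (QuotientGroup.mk' (K p)) x := by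
    intro x y h
    have h1 : (QuotientGroup.mk' (K p)) ⁅x, y⁆ = 1 := (QuotientGroup.eq_one_iff _).2 h
    rw [map_commutatorElement] at h1
    exact commutatorElement_eq_one_iff_mul_comm.1 h1
  refine F_ind_left (fun g => (QuotientGroup.mk' (K p)) g * (QuotientGroup.mk' (K p)) (ge p) =
      (QuotientGroup.mk' (K p)) (ge p) * (QuotientGroup.mk' (K p)) g) ?_ ?_ ?_ g
  · simp
  · intro g hg
    have ha := key ga (ge p) (cc_mem p)
    rw [map_mul, mul_assoc, hg, ← mul_assoc, ha, mul_assoc]
  · intro i g hg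
    have hi : (QuotientGroup.mk' (K p)) (ge i) * (QuotientGroup.mk' (K p)) (ge p) =
        (QuotientGroup.mk' (K p)) (ge p) * (QuotientGroup.mk' (K p)) (ge i) := by
      rw [← map_mul, ge_comm, map_mul]
    rw [map_mul, mul_assoc, hg, ← mul_assoc, hi, mul_assoc]

lemma comm_ge_mem (p : Fin 3) (g : F) : ⁅g, ge p⁆ ∈ K p := by
  have h : (QuotientGroup.mk' (K p)) ⁅g, ge p⁆ = 1 := by
    rw [map_commutatorElement]
    exact commutatorElement_eq_one_iff_mul_comm.2 (mk_comm p g)
  exact (QuotientGroup.eq_one_iff _).1 h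

lemma comm_ge_mem' (p : Fin 3) (g : F) : ⁅ge p, g⁆ ∈ K p := by
  rw [← commutatorElement_inv]
  exact (K p).inv_mem (comm_ge_mem p g)

end quot

/-- the computation in a group behind `gam_conj` -/
lemma conj_calc {Q : Type*} [Group Q] (A P T : Q) (hA : A * A = 1) (hP : P * P = 1)
    (hT : T * T = 1) (hPT : T * P = P * T) (hAT : T * A = A * T) :
    (A * (P * A) * A⁻¹ = (P * A)⁻¹) ∧ (P * (P * A)⁻¹ * P⁻¹ = P * A) ∧
    (T * (P * A)⁻¹ * T⁻¹ = (P * A)⁻¹) ∧ ((P * T) * (P * A)⁻¹ * (P * T)⁻¹ = P * A) := by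
  have iA : A⁻¹ = A := inv_eq_of_mul_eq_one_right hA
  have iP : P⁻¹ = P := inv_eq_of_mul_eq_one_right hP
  have iT : T⁻¹ = T := inv_eq_of_mul_eq_one_right hT
  have A2 : ∀ x, A * (A * x) = x := fun x => by rw [← mul_assoc, hA, one_mul]
  have P2 : ∀ x, P * (P * x) = x := fun x => by rw [← mul_assoc, hP, one_mul]
  have T2 : ∀ x, T * (T * x) = x := fun x => by rw [← mul_assoc, hT, one_mul]
  have TP : ∀ x, T * (P * x) = P * (T * x) := fun x => by rw [← mul_assoc, hPT, mul_assoc]
  have TA : ∀ x, T * (A * x) = A * (T * x) := fun x => by rw [← mul_assoc, hAT, mul_assoc]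
  refine ⟨?_, ?_, ?_, ?_⟩ <;>
    simp [mul_inv_rev, iA, iP, iT, mul_assoc, hA, hP, hT, hPT, hAT, A2, P2, T2, TP, TA]

lemma gam_conj (t p : Fin 3) (g : F) :
    PhiB t g * PhiB t (cc p) * (PhiB t g)⁻¹ = PhiB t (cc p) ∨
      PhiB t g * PhiB t (cc p) * (PhiB t g)⁻¹ = (PhiB t (cc p))⁻¹ := by
  set q : F →* F ⧸ K t := QuotientGroup.mk' (K t) with hq
  have hγ : PhiB t (cc p) = pr (q (uu t p)) (q (uu t p))⁻¹ := by
    rw [PhiB_apply, Phi_cc, map_pr, map_inv]
  have key : ∀ s : F, (s = ga ∨ ∃ i, s = ge i) →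
      (PhiB t s * PhiB t (cc p) * (PhiB t s)⁻¹ = PhiB t (cc p) ∨
      PhiB t s * PhiB t (cc p) * (PhiB t s)⁻¹ = (PhiB t (cc p))⁻¹) := by
    rintro s (rfl | ⟨i, rfl⟩)
    · right
      have h1 : PhiB t ga = swp := by
        rw [PhiB_apply, Phi_a]
        apply Wr.ext
        · funext b; simp
        · simp
      rw [hγ, h1, swp_conj, pr_inv, inv_inv]
    · have h1 : PhiB t (ge i) = pr (q (al t i)) (q (ge i)) := by
        rw [PhiB_apply, Phi_e, map_pr]
      rw [hγ, h1, pr_mul, pr_inv, pr_mul, pr_inv, inv_inv]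
      have hA : q ga * q ga = 1 := by rw [← map_mul, ga_sq, map_one]
      have hE : ∀ j, q (ge j) * q (ge j) = 1 := fun j => by rw [← map_mul, ge_sq, map_one]
      have hEE : ∀ j, q (ge t) * q (ge j) = q (ge j) * q (ge t) := fun j => by
        rw [← map_mul, ge_comm, map_mul]
      have hAT : q (ge t) * q ga = q ga * q (ge t) := (mk_comm t ga).symm
      by_cases hp : p = t
      · subst hp
        left
        have hu : q (uu p p) = q (ge p) := by simp [uu, al]
        rw [hu]
        have hc : ∀ g, q g * q (ge p) * (q g)⁻¹ = q (ge p) := by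
          intro g
          rw [mk_comm p g, mul_assoc, mul_inv_cancel, mul_one]
        have hc' : ∀ g, q g * (q (ge p))⁻¹ * (q g)⁻¹ = (q (ge p))⁻¹ := by
          intro g
          have := congrArg (fun x => x⁻¹) (hc g)
          simpa [mul_inv_rev, mul_assoc] using this
        rw [hc, hc']
      · have hu : q (uu t p) = q (ge p) * q ga := by simp [uu, al, hp]
        obtain ⟨c1, c2, c3, c4⟩ := conj_calc (q ga) (q (ge p)) (q (ge t)) hA (hE p) (hE t)
          (hEE p) hAT
        rw [hu]
        by_cases hi : i = t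
        · left
          subst hi
          have : q (al i i) = 1 := by simp [al]
          rw [this, c3]
          simp
        · right
          have h2 : q (al t i) = q ga := by simp [al, hi]
          rw [h2, c1]
          by_cases hip : i = p
          · subst hip
            rw [c2]
          · have h3 : q (ge i) = q (ge p) * q (ge t) := by
              rw [← map_mul, ge_mul hp hip hi]
            rw [h3, c4]
  refine F_ind_left (fun g => PhiB t g * PhiB t (cc p) * (PhiB t g)⁻¹ = PhiB t (cc p) ∨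
      PhiB t g * PhiB t (cc p) * (PhiB t g)⁻¹ = (PhiB t (cc p))⁻¹) ?_ ?_ ?_ g
  · left; simp
  · intro g hg
    have h0 : PhiB t (ga * g) * PhiB t (cc p) * (PhiB t (ga * g))⁻¹ =
        PhiB t ga * (PhiB t g * PhiB t (cc p) * (PhiB t g)⁻¹) * (PhiB t ga)⁻¹ := by
      rw [map_mul]; group
    rw [h0]
    rcases hg with hg | hg
    · rw [hg]; exact key ga (Or.inl rfl)
    · rw [hg]
      rcases key ga (Or.inl rfl) with h | h
      · right
        have := congrArg (fun x => x⁻¹) h
        simpa [mul_inv_rev, mul_assoc] using this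
      · left
        have := congrArg (fun x => x⁻¹) h
        simpa [mul_inv_rev, mul_assoc] using this
  · intro i g hg
    have h0 : PhiB t (ge i * g) * PhiB t (cc p) * (PhiB t (ge i * g))⁻¹ =
        PhiB t (ge i) * (PhiB t g * PhiB t (cc p) * (PhiB t g)⁻¹) * (PhiB t (ge i))⁻¹ := by
      rw [map_mul]; group
    rw [h0]
    rcases hg with hg | hg
    · rw [hg]; exact key (ge i) (Or.inr ⟨i, rfl⟩)
    · rw [hg]
      rcases key (ge i) (Or.inr ⟨i, rfl⟩) with h | h
      · right
        have := congrArg (fun x => x⁻¹) h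
        simpa [mul_inv_rev, mul_assoc] using this
      · left
        have := congrArg (fun x => x⁻¹) h
        simpa [mul_inv_rev, mul_assoc] using this

/-- sections of elements of `K p` modulo `K t` -/
lemma PhiB_mem (t p : Fin 3) {g : F} (hg : g ∈ K p) :
    ∃ j : ℤ, PhiB t g = (PhiB t (cc p)) ^ j := by
  have hN : (Subgroup.comap (PhiB t) (Subgroup.zpowers (PhiB t (cc p)))).Normal := by
    constructor
    rintro n ⟨m, hm⟩ g
    have hm' : PhiB t (cc p) ^ m = PhiB t n := hm
    rw [Subgroup.mem_comap, map_mul, map_mul, map_inv, ← hm', ← conj_zpow]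
    rcases gam_conj t p g with h | h
    · rw [h]; exact ⟨m, rfl⟩
    · rw [h]; exact ⟨-m, by simp⟩
  have h1 : K p ≤ Subgroup.comap (PhiB t) (Subgroup.zpowers (PhiB t (cc p))) := by
    apply Subgroup.normalClosure_le_normal
    intro x hx
    rw [Set.mem_singleton_iff] at hx
    subst hx
    exact Subgroup.mem_zpowers _
  obtain ⟨j, hj⟩ := h1 hg
  exact ⟨j, hj.symm⟩

end Pool.Agent.CW71
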