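import Mathlib
import Pool.Agent.CW71.FG

set_option autoImplicit false

/-!
Branching, lifting of products of commutators, the tree action and the recursion step.
-/

namespace Pool.Agent.CW71

open scoped commutatorElement
open Wr

lemma pr_comm {A : Type*} [Group A] (x y z w : A) :
    ⁅pr x y, pr z w⁆ = pr ⁅x, z⁆ ⁅y, w⁆ := by
  simp only [commutatorElement_def, pr_mul, pr_inv]

/-- the generators of `F` -/
def SS : List F := [ga, ge 0, ge 1, ge 2]

lemma SS_length : SS.length = 4 := rfl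

lemma ga_mem : ga ∈ SS := by simp [SS]
lemma ge_mem (i : Fin 3) : ge i ∈ SS := by fin_cases i <;> simp [SS]

lemma comm_word {p : Fin 3} (l : List F) (hl : ∀ s ∈ l, s ∈ SS) {k : F} (hk : k ∈ K p) :
    ⁅l.prod, k⁆ ∈ R (K p) SS (24 * l.length) := by
  refine R_mono ?_ (R_comm_word l hl hk)
  rw [SS_length]; omega

lemma R_mulS {p : Fin 3} {M M' : ℕ} {x y : F} (hx : x ∈ R (K p) SS M) (hy : y ∈ R (K p) SS M') :
    x * y ∈ R (K p) SS (M + M' + 16) := R_mul hx hy

lemma R_ga {p : Fin 3} {k : F} (hk : k ∈ K p) : ⁅ga, k⁆ ∈ R (K p) SS 4 := gen_mem_R ga_mem hk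

lemma Phi_aea (t i : Fin 3) : Phi t (ga * ge i * ga) = pr (ge i) (al t i) := by
  rw [map_mul, map_mul, Phi_a, Phi_e]
  have := swp_conj (al t i) (ge i)
  rwa [swp_inv] at this

lemma exists_kst (t p : Fin 3) : ∃ k ∈ R (K p) SS 100, Phi t k = pr (cc t) 1 := by
  by_cases hp : p = t
  · subst hp
    refine ⟨⁅ge (p + 1), cc p⁆, R_mono (by rw [SS_length]; norm_num)
      (gen_mem_R (ge_mem _) (cc_mem p)), ?_⟩
    have hq : p + 1 ≠ p := by revert p; decide
    have h1 : al p (p + 1) = ga := by simp [al, hq]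
    have h2 : uu p p = ge p := by simp [uu, al]
    rw [map_commutatorElement, Phi_e, Phi_cc, h1, h2, ge_inv, pr_comm]
    have h3 : ⁅ge (p + 1), ge p⁆ = 1 :=
      commutatorElement_eq_one_iff_mul_comm.2 (ge_comm _ _)
    rw [h3]; rfl
  · refine ⟨(cc p)⁻¹ * ⁅ga * ge t * ga, cc p⁆ * (cc p)⁻¹⁻¹, ?_, ?_⟩
    · refine R_mono ?_ (R_conj_K (comm_word (p := p) [ga, ge t, ga] ?_ (cc_mem p))
        ((K p).inv_mem (cc_mem p)) |> fun h => by simpa [mul_assoc] using h)
      · norm_num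
      · intro s hs
        simp only [List.mem_cons, List.not_mem_nil, or_false] at hs
        rcases hs with rfl | rfl | rfl
        · exact ga_mem
        · exact ge_mem t
        · exact ga_mem
    · have h2 : uu t p = ge p * ga := by simp [uu, al, hp]
      have h3 : al t t = 1 := by simp [al]
      rw [inv_inv, map_mul, map_mul, map_commutatorElement, map_inv, Phi_aea, h3, Phi_cc, h2,
        pr_comm, pr_inv, pr_mul, pr_mul]
      congr 1
      · rw [cc_eq]
        simp only [commutatorElement_def, mul_inv_rev, ga_inv, ge_inv, mul_assoc]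
        have h4 : ge p * (ge t * (ge p * (ga * ge t))) = ge t * (ga * ge t) := by
          rw [← mul_assoc (ge t) (ge p), ge_comm t p, mul_assoc, ge_sq']
        rw [ge_sq' p ga, ga_sq, mul_one, h4]
      · simp

lemma exists_lift (t : Fin 3) {s : F} (hs : s ∈ SS) :
    ∃ l : List F, (∀ x ∈ l, x ∈ SS) ∧ l.length ≤ 3 ∧ ∃ y, Phi t l.prod = pr s y := by
  have he : ∀ i, ∃ l : List F, (∀ x ∈ l, x ∈ SS) ∧ l.length ≤ 3 ∧
      ∃ y, Phi t l.prod = pr (ge i) y := by
    intro i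
    refine ⟨[ga, ge i, ga], ?_, by simp, al t i, ?_⟩
    · intro s hs
      simp only [List.mem_cons, List.not_mem_nil, or_false] at hs
      rcases hs with rfl | rfl | rfl
      · exact ga_mem
      · exact ge_mem i
      · exact ga_mem
    · rw [← Phi_aea]; simp [mul_assoc]
  simp only [SS, List.mem_cons, List.not_mem_nil, or_false] at hs
  rcases hs with rfl | rfl | rfl | rfl
  · refine ⟨[ge (t + 1)], ?_, by simp, ge (t + 1), ?_⟩
    · intro s hs
      simp only [List.mem_cons, List.not_mem_nil, or_false] at hs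
      rw [hs]; exact ge_mem _
    · have hq : t + 1 ≠ t := by clear he; revert t; decide
      have h1 : al t (t + 1) = ga := by simp [al, hq]
      simp [h1]
  · exact he 0
  · exact he 1
  · exact he 2

lemma exists_lift_all (t : Fin 3) (g : F) : ∃ h y, Phi t h = pr g y := by
  have hs : ∀ s ∈ SS, ∀ g, (∃ h y, Phi t h = pr g y) → ∃ h y, Phi t h = pr (s * g) y := by
    rintro s hs g ⟨h, y, hy⟩
    obtain ⟨l, _, _, z, hz⟩ := exists_lift t hs
    exact ⟨l.prod * h, z * y, by rw [map_mul, hz, hy, pr_mul]⟩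
  refine F_ind_left (fun g => ∃ h y, Phi t h = pr g y) ?_ ?_ ?_ g
  · exact ⟨1, 1, by rw [map_one, pr_one]⟩
  · intro g hg; exact hs ga ga_mem g hg
  · intro i g hg; exact hs (ge i) (ge_mem i) g hg

/-- elements of `K t` in the first coordinate come from `K p` -/
lemma branch0 (t p : Fin 3) {x : F} (hx : x ∈ K t) : ∃ k ∈ K p, Phi t k = pr x 1 := by
  let B : Subgroup F :=
    { carrier := {x | ∃ k ∈ K p, Phi t k = pr x 1}
      one_mem' := ⟨1, (K p).one_mem, by rw [map_one, pr_one]⟩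
      mul_mem' := by
        rintro x y ⟨k, hk, h⟩ ⟨k', hk', h'⟩
        exact ⟨k * k', (K p).mul_mem hk hk', by rw [map_mul, h, h', pr_mul, one_mul]⟩
      inv_mem' := by
        rintro x ⟨k, hk, h⟩
        exact ⟨k⁻¹, (K p).inv_mem hk, by rw [map_inv, h, pr_inv, inv_one]⟩ }
  have hB : B.Normal := by
    constructor
    rintro x ⟨k, hk, h⟩ g
    obtain ⟨g', y, hy⟩ := exists_lift_all t g
    refine ⟨g' * k * g'⁻¹, (inferInstance : (K p).Normal).conj_mem k hk g', ?_⟩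
    rw [map_mul, map_mul, map_inv, h, hy, pr_mul, pr_inv, pr_mul]
    simp
  have h1 : K t ≤ B := by
    apply Subgroup.normalClosure_le_normal
    intro x hx
    rw [Set.mem_singleton_iff] at hx
    subst hx
    obtain ⟨k, hk, h⟩ := exists_kst t p
    exact ⟨k, R_sub hk, h⟩
  exact h1 hx

lemma branch1 (t p : Fin 3) {x : F} (hx : x ∈ K t) : ∃ k ∈ K p, Phi t k = pr 1 x := by
  obtain ⟨k, hk, h⟩ := branch0 t p hx
  refine ⟨ga * k * ga⁻¹, (inferInstance : (K p).Normal).conj_mem k hk ga, ?_⟩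
  rw [map_mul, map_mul, map_inv, h, Phi_a, swp_conj]

lemma branch (t p : Fin 3) {x y : F} (hx : x ∈ K t) (hy : y ∈ K t) :
    ∃ k ∈ K p, Phi t k = pr x y := by
  obtain ⟨k, hk, h⟩ := branch0 t p hx
  obtain ⟨k', hk', h'⟩ := branch1 t p hy
  exact ⟨k * k', (K p).mul_mem hk hk', by rw [map_mul, h, h', pr_mul, one_mul, mul_one]⟩

lemma CK_pair (t p : Fin 3) {M : ℕ} {x y : F} (hx : x ∈ CK (K t) M) (hy : y ∈ CK (K t) M) :
    ∃ k ∈ CK (K p) M, Phi t k = pr x y := by
  induction M generalizing x y with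
  | zero =>
    have h1 : x = 1 := hx
    have h2 : y = 1 := hy
    exact ⟨1, rfl, by rw [h1, h2, map_one, pr_one]⟩
  | succ M ih =>
    obtain ⟨a, ha, b, hb, z, hz, rfl⟩ := hx
    obtain ⟨a', ha', b', hb', z', hz', rfl⟩ := hy
    obtain ⟨k, hk, h⟩ := ih hz hz'
    obtain ⟨u, hu, h1⟩ := branch t p ha ha'
    obtain ⟨v, hv, h2⟩ := branch t p hb hb'
    exact ⟨⁅u, v⁆ * k, ⟨u, hu, v, hv, k, hk, rfl⟩, by
      rw [map_mul, map_commutatorElement, h, h1, h2, pr_comm, pr_mul]⟩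

/-- the sections of `[a, k]` -/
lemma Phi_comm_a (t : Fin 3) {k x y : F} (h : Phi t k = pr x y) :
    Phi t ⁅ga, k⁆ = pr (y * x⁻¹) (x * y⁻¹) := by
  rw [map_commutatorElement, commutatorElement_def, h, Phi_a, swp_conj, pr_inv, pr_mul]

lemma lift_R (t p : Fin 3) (T : List F) (hT : ∀ s ∈ T, s ∈ SS) {M : ℕ} {w : F}
    (hw : w ∈ R (K t) T (M + M)) :
    ∃ k ∈ R (K p) SS (M + 4 + 100 * T.length), Phi t k = pr w 1 := by
  induction T generalizing w with
  | nil =>
    have hw' : w ∈ CK (K t) (M + M) := hw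
    obtain ⟨x, hx, y, hy, rfl⟩ := CK_split hw'
    obtain ⟨k, hk, h⟩ := CK_pair t p hx hy
    obtain ⟨k', hk', h'⟩ := branch1 t p (CK_sub hy)
    refine ⟨k * ⁅ga, k'⁆, R_mono ?_ (CK_mul_R hk (R_ga hk')), ?_⟩
    · simp; omega
    · rw [map_mul, h, Phi_comm_a t h', pr_mul]
      simp
  | cons s T ih =>
    obtain ⟨m, hm, y, hy, rfl⟩ := hw
    obtain ⟨k, hk, h⟩ := ih (fun s' hs' => hT s' (List.mem_cons_of_mem _ hs')) hy
    obtain ⟨l, hl, hl3, z, hz⟩ := exists_lift t (hT s List.mem_cons_self)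
    obtain ⟨m', hm', hm''⟩ := branch0 t p hm
    refine ⟨⁅l.prod, m'⁆ * k, R_mono ?_ (R_mulS (comm_word l hl hm') hk), ?_⟩
    · simp only [List.length_cons]; omega
    · rw [map_mul, map_commutatorElement, h, hz, hm'', pr_comm, pr_mul]
      simp

/-! ### The tree action -/

/-- switching the first letter -/
def flp : List Bool → List Bool
  | [] => []
  | x :: w => (!x) :: w

/-- the action of the generator `e_i` -/
def eac (i : Fin 3) : (ℕ → Fin 3) → List Bool → List Bool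
  | _, [] => []
  | ω, false :: w => false :: (if i = ω 0 then w else flp w)
  | ω, true :: w => true :: eac i (fun n => ω (n + 1)) w

lemma flp_flp (w : List Bool) : flp (flp w) = w := by
  cases w <;> simp [flp]

lemma eac_eac (i : Fin 3) (ω : ℕ → Fin 3) (w : List Bool) : eac i ω (eac i ω w) = w := by
  induction w generalizing ω with
  | nil => rfl
  | cons x w ih =>
    cases x with
    | false =>
      simp only [eac]
      split <;> simp [flp_flp]
    | true => simp only [eac, ih]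

/-- the generator `a` of the Grigorchuk groups -/
def aP : Equiv.Perm (List Bool) := ⟨flp, flp, flp_flp, flp_flp⟩

/-- the generators `e_i` of the Grigorchuk group `G_ω` -/
def eP (ω : ℕ → Fin 3) (i : Fin 3) : Equiv.Perm (List Bool) :=
  ⟨eac i ω, eac i ω, eac_eac i ω, eac_eac i ω⟩

@[simp] lemma aP_apply (w : List Bool) : aP w = flp w := rfl
@[simp] lemma eP_apply (ω : ℕ → Fin 3) (i : Fin 3) (w : List Bool) : eP ω i w = eac i ω w := rfl

lemma eac_012 (ω : ℕ → Fin 3) (w : List Bool) : eac 0 ω (eac 1 ω (eac 2 ω w)) = w := by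
  induction w generalizing ω with
  | nil => rfl
  | cons x w ih =>
    cases x with
    | false =>
      simp only [eac]
      have h : ω 0 = 0 ∨ ω 0 = 1 ∨ ω 0 = 2 := by
        generalize ω 0 = z; revert z; decide
      rcases h with h | h | h <;> simp [h, flp_flp]
    | true => simp only [eac, ih]

/-- the action of `F` on the binary tree -/
def pi (ω : ℕ → Fin 3) : F →* Equiv.Perm (List Bool) :=
  liftF (fun s => match s with
    | none => aP
    | some i => eP ω i)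
    (by
      intro s
      cases s with
      | none => exact Equiv.ext flp_flp
      | some i => exact Equiv.ext (eac_eac i ω))
    (Equiv.ext (eac_012 ω))

@[simp] lemma pi_a (ω : ℕ → Fin 3) : pi ω ga = aP := by simp [pi]
@[simp] lemma pi_e (ω : ℕ → Fin 3) (i : Fin 3) : pi ω (ge i) = eP ω i := by simp [pi]

/-- the shift -/
def sh (ω : ℕ → Fin 3) : ℕ → Fin 3 := fun n => ω (n + 1)

lemma pi_nil (ω : ℕ → Fin 3) (g : F) : pi ω g [] = [] := by
  refine F_ind_left (fun g => pi ω g [] = []) ?_ ?_ ?_ g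
  · simp
  · intro g hg
    rw [map_mul, Equiv.Perm.mul_apply, hg]; simp [flp]
  · intro i g hg
    rw [map_mul, Equiv.Perm.mul_apply, hg]; simp [eac]

lemma pi_cons (ω : ℕ → Fin 3) (g : F) (x : Bool) (w : List Bool) :
    pi ω g (x :: w) = (xor x (Phi (ω 0) g).sw) :: pi (sh ω) ((Phi (ω 0) g).sec x) w := by
  refine F_ind_left (fun g => ∀ x w, pi ω g (x :: w) =
    (xor x (Phi (ω 0) g).sw) :: pi (sh ω) ((Phi (ω 0) g).sec x) w) ?_ ?_ ?_ g x w
  · intro x w; simp
  · intro g hg x w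
    rw [map_mul, Equiv.Perm.mul_apply, hg]
    simp [flp]
  · intro i g hg x w
    rw [map_mul, Equiv.Perm.mul_apply, hg]
    simp only [pi_e, eP_apply, map_mul, Phi_e, mul_sw, pr_sw, mul_sec, Bool.false_xor,
      Equiv.Perm.mul_apply]
    cases h : (x ^^ (Phi (ω 0) g).sw) with
    | false =>
      simp only [eac, pr_sec_false, al]
      by_cases hi : i = ω 0
      · simp [hi]
      · simp [hi]
    | true =>
      simp only [eac, pr_sec_true, pi_e, eP_apply]
      rfl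

lemma pi_ext {ω : ℕ → Fin 3} {g h : F} (h0 : (Phi (ω 0) g).sw = (Phi (ω 0) h).sw)
    (h1 : ∀ x, pi (sh ω) ((Phi (ω 0) g).sec x) = pi (sh ω) ((Phi (ω 0) h).sec x)) :
    pi ω g = pi ω h := by
  apply Equiv.ext
  intro w
  cases w with
  | nil => rw [pi_nil, pi_nil]
  | cons x w => rw [pi_cons, pi_cons, h0, h1]

/-! ### The recursion step -/

/-- `Y` acts as `c_p^ε Z` with `Z` in `R (K p) SS M` -/
def PP (ω : ℕ → Fin 3) (p : Fin 3) (M : ℕ) (Y : F) : Prop :=
  ∃ ε < 2, ∃ Z ∈ R (K p) SS M, pi ω Y = pi ω ((cc p) ^ ε * Z)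

lemma PP_mono {ω : ℕ → Fin 3} {p : Fin 3} {M M' : ℕ} {Y : F} (h : M ≤ M') (hY : PP ω p M Y) :
    PP ω p M' Y := by
  obtain ⟨ε, hε, Z, hZ, h'⟩ := hY
  exact ⟨ε, hε, Z, R_mono h hZ, h'⟩

lemma key_even (t p : Fin 3) {Y : F} (i : ℤ) (hY : PhiB t Y = (PhiB t (cc p)) ^ (i + i)) :
    ∃ X ∈ K t, X = (Phi t Y).sec false * (Phi t Y).sec true ∧
      ∃ k ∈ K p, Phi t Y = pr X 1 * Phi t ⁅ga, k⁆ := by
  set q : F →* F ⧸ K t := QuotientGroup.mk' (K t) with hq
  have hγ : PhiB t (cc p) = pr (q (uu t p)) (q (uu t p))⁻¹ := by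
    rw [PhiB_apply, Phi_cc, map_pr, map_inv]
  rw [hγ, pr_zpow] at hY
  have hsw : (Phi t Y).sw = false := by
    have := congrArg Wr.sw hY
    simpa [PhiB_apply] using this
  have hY0 : q ((Phi t Y).sec false) = q (uu t p) ^ (i + i) := by
    have := congrArg (fun g => Wr.sec g false) hY
    exact this
  have hY1 : q ((Phi t Y).sec true) = (q (uu t p))⁻¹ ^ (i + i) := by
    have := congrArg (fun g => Wr.sec g true) hY
    exact this
  set Y0 := (Phi t Y).sec false
  set Y1 := (Phi t Y).sec true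
  have hX : Y0 * Y1 ∈ K t := by
    apply (QuotientGroup.eq_one_iff (N := K t) _).1
    show q (Y0 * Y1) = 1
    rw [map_mul, hY0, hY1, inv_zpow, mul_inv_cancel]
  have hκ : uu t p ^ i * Y1 * uu t p ^ i ∈ K t := by
    apply (QuotientGroup.eq_one_iff (N := K t) _).1
    show q (uu t p ^ i * Y1 * uu t p ^ i) = 1
    rw [map_mul, map_mul, map_zpow, hY1, inv_zpow, zpow_add]
    group
  obtain ⟨b, hb, hb'⟩ := branch0 t p hκ
  refine ⟨Y0 * Y1, hX, rfl, (cc p) ^ (-i) * b, (K p).mul_mem ((K p).zpow_mem (cc_mem p) _) hb, ?_⟩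
  have hk : Phi t ((cc p) ^ (-i) * b) = pr (Y1 * uu t p ^ i) (uu t p ^ i) := by
    rw [map_mul, map_zpow, Phi_cc, pr_zpow, hb', pr_mul]
    congr 1
    · group
    · simp
  rw [Phi_comm_a t hk, pr_mul, eq_pr hsw]
  congr 1
  · simp [Y0, Y1, mul_assoc]
  · simp [Y1]

/-- the recursion step -/
lemma step (ω : ℕ → Fin 3) (p : Fin 3) {Y : F} (hY : Y ∈ K p) :
    ∃ ε < 2, ∃ X ∈ K (ω 0), X = (Phi (ω 0) (((cc p)⁻¹) ^ ε * Y)).sec false *
        (Phi (ω 0) (((cc p)⁻¹) ^ ε * Y)).sec true ∧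
      ∀ M, PP (sh ω) (ω 0) (M + M) X → PP ω p (M + 600) Y := by
  set t := ω 0 with ht
  obtain ⟨j, hj⟩ := PhiB_mem t p hY
  obtain ⟨i, ε, hε, hi⟩ : ∃ (i : ℤ) (ε : ℕ), ε < 2 ∧ j = i + i + ε := by
    refine ⟨j / 2, (j % 2).toNat, by omega, by omega⟩
  have hY' : PhiB t (((cc p)⁻¹) ^ ε * Y) = (PhiB t (cc p)) ^ (i + i) := by
    rw [map_mul, map_pow, map_inv, hj, hi, inv_pow, ← zpow_natCast, ← zpow_neg, ← zpow_add]
    congr 1
    omega
  obtain ⟨X, hX, hX', k, hk, hk'⟩ := key_even t p i hY'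
  refine ⟨ε, hε, X, hX, hX', ?_⟩
  rintro M ⟨δ, hδ, W, hW, hP⟩
  obtain ⟨ks, hks, hks'⟩ := exists_kst t p
  obtain ⟨W', hW', hW''⟩ := lift_R t p SS (fun _ h => h) hW
  have hks2 : ks ^ δ ∈ R (K p) SS 100 := by
    have hδ' : δ = 0 ∨ δ = 1 := by omega
    rcases hδ' with h | h
    · rw [h, pow_zero]; exact one_mem_R SS 100
    · rw [h, pow_one]; exact hks
  have hL : M + 4 + 100 * SS.length ≤ M + 404 := by
    have := SS_length
    omega
  have hW3 := R_mono hL hW'
  have hZ1 := R_mulS (R_mulS hks2 hW3) (R_ga hk)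
  have hM : 100 + (M + 404) + 16 + 4 + 16 ≤ M + 600 := by omega
  have hZ := R_mono hM hZ1
  refine ⟨ε, hε, ks ^ δ * W' * ⁅ga, k⁆, hZ, ?_⟩
  have h1 : pi ω (((cc p)⁻¹) ^ ε * Y) = pi ω (ks ^ δ * W' * ⁅ga, k⁆) := by
    have e1 : Phi (ω 0) (((cc p)⁻¹) ^ ε * Y) = pr X 1 * Phi (ω 0) ⁅ga, k⁆ := hk'
    have e2 : Phi (ω 0) (ks ^ δ * W' * ⁅ga, k⁆) = pr ((cc t) ^ δ * W) 1 * Phi (ω 0) ⁅ga, k⁆ := by
      show Phi t _ = _ * Phi t _
      rw [map_mul, map_mul, map_pow, hks', hW'', pr_pow, pr_mul, one_pow, one_mul]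
    apply pi_ext
    · rw [e1, e2]; simp
    · intro x
      rw [e1, e2, mul_sec, mul_sec, map_mul, map_mul]
      congr 1
      cases (x ^^ (Phi (ω 0) ⁅ga, k⁆).sw) with
      | false => rw [pr_sec_false, pr_sec_false]; exact hP
      | true => rw [pr_sec_true, pr_sec_true]
  have h2 : Y = (cc p) ^ ε * (((cc p)⁻¹) ^ ε * Y) := by
    rw [inv_pow]; group
  calc pi ω Y = pi ω ((cc p) ^ ε * (((cc p)⁻¹) ^ ε * Y)) := by rw [← h2]
    _ = pi ω ((cc p) ^ ε) * pi ω (((cc p)⁻¹) ^ ε * Y) := map_mul _ _ _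
    _ = pi ω ((cc p) ^ ε) * pi ω (ks ^ δ * W' * ⁅ga, k⁆) := by rw [h1]
    _ = _ := (map_mul _ _ _).symm

end Pool.Agent.CW71
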