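import Mathlib
import Pool.Agent.CW71.Rec

set_option autoImplicit false

/-!
Lengths and the a priori quadratic bound.
-/

namespace Pool.Agent.CW71

open scoped commutatorElement
open Wr

/-! ### Lengths -/

/-- the elements of the four group -/
def vv : Option (Fin 3) → F
  | none => 1
  | some i => ge i

/-- words with exactly `n` letters `a` -/
inductive Len : ℕ → F → Prop
  | base (v : Option (Fin 3)) : Len 0 (vv v)
  | step {n : ℕ} {g : F} (v : Option (Fin 3)) : Len n g → Len (n + 1) (g * ga * vv v)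

lemma vv_mul (v w : Option (Fin 3)) : ∃ u, vv v * vv w = vv u := by
  cases v with
  | none => exact ⟨w, by simp [vv]⟩
  | some i =>
    cases w with
    | none => exact ⟨some i, by simp [vv]⟩
    | some j =>
      by_cases h : i = j
      · subst h; exact ⟨none, by simp [vv, ge_sq]⟩
      · obtain ⟨k, h1, h2⟩ : ∃ k : Fin 3, k ≠ i ∧ k ≠ j := by
          revert i j; decide
        exact ⟨some k, by simp [vv, ge_mul h h1 h2]⟩

lemma Len.mul_v {n : ℕ} {g : F} (h : Len n g) (v : Option (Fin 3)) : Len n (g * vv v) := by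
  cases h with
  | base w =>
    obtain ⟨u, hu⟩ := vv_mul w v
    rw [hu]; exact Len.base u
  | step w h =>
    obtain ⟨u, hu⟩ := vv_mul w v
    rw [mul_assoc _ (vv w), hu]; exact Len.step u h

lemma Len.mul_a {n : ℕ} {g : F} (h : Len n g) : Len (n + 1) (g * ga) := by
  have := Len.step none h
  simpa [vv] using this

lemma Len.mul {n m : ℕ} {g h : F} (hg : Len n g) (hh : Len m h) : Len (n + m) (g * h) := by
  induction hh with
  | base v => exact hg.mul_v v
  | step v h ih =>
    rw [← mul_assoc, ← mul_assoc]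
    exact Len.step v ih

lemma Len.exists (g : F) : ∃ n, Len n g := by
  refine F_ind_right (fun g => ∃ n, Len n g) ⟨0, Len.base none⟩ ?_ ?_ g
  · rintro g ⟨n, h⟩; exact ⟨n + 1, h.mul_a⟩
  · rintro i g ⟨n, h⟩; exact ⟨n, h.mul_v (some i)⟩

lemma Len_al (t i : Fin 3) : Len 0 (al t i) ∨ Len 1 (al t i) := by
  unfold al
  split
  · left; exact Len.base none
  · right
    have := (Len.base none).mul_a
    simpa [vv] using this

/-- sections of a short word are short -/
lemma Len.sec (t : Fin 3) {n : ℕ} {g : F} (h : Len n g) :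
    ∃ n0 n1, n0 + n1 ≤ n + 1 ∧ Len n0 ((Phi t g).sec false) ∧ Len n1 ((Phi t g).sec true) := by
  have hv : ∀ v, (∃ m ≤ 1, Len m ((Phi t (vv v)).sec false)) ∧ ∃ w, (Phi t (vv v)).sec true = vv w := by
    intro v
    cases v with
    | none => exact ⟨⟨0, by omega, by simpa [vv] using Len.base none⟩, none, by simp [vv]⟩
    | some i =>
      refine ⟨?_, some i, by simp [vv]⟩
      rcases Len_al t i with h | h
      · exact ⟨0, by omega, by simpa [vv] using h⟩
      · exact ⟨1, by omega, by simpa [vv] using h⟩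
  induction h with
  | base v =>
    obtain ⟨⟨m, hm, h⟩, w, hw⟩ := hv v
    exact ⟨m, 0, by omega, h, by rw [hw]; exact Len.base w⟩
  | @step n g v hg ih =>
    obtain ⟨n0, n1, h01, h0, h1⟩ := ih
    obtain ⟨⟨m, hm, h⟩, w, hw⟩ := hv v
    have hsw : (Phi t (vv v)).sw = false := by
      cases v <;> simp [vv]
    have e0 : (Phi t (g * ga * vv v)).sec false =
        (Phi t g).sec true * (Phi t (vv v)).sec false := by
      rw [map_mul, map_mul, mul_sec, hsw]
      simp
    have e1 : (Phi t (g * ga * vv v)).sec true =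
        (Phi t g).sec false * (Phi t (vv v)).sec true := by
      rw [map_mul, map_mul, mul_sec, hsw]
      simp
    refine ⟨n1 + m, n0, by omega, ?_, ?_⟩
    · rw [e0]; exact h1.mul h
    · rw [e1, hw]; exact h0.mul_v w

/-- words with at most `n` letters `a` -/
def LenLE (n : ℕ) (g : F) : Prop := ∃ m ≤ n, Len m g

lemma Len_ccinv (p : Fin 3) : Len 2 ((cc p)⁻¹) := by
  have h := (((Len.base (some p)).mul_a).mul_v (some p)).mul_a
  rw [cc_inv]
  exact h

/-- the recursion step with lengths -/
lemma step' (ω : ℕ → Fin 3) (p : Fin 3) {n : ℕ} {Y : F} (hY : Y ∈ K p) (hn : LenLE n Y) :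
    ∃ X ∈ K (ω 0), LenLE (n + 3) X ∧
      ∀ M, PP (sh ω) (ω 0) (M + M) X → PP ω p (M + 600) Y := by
  obtain ⟨ε, hε, X, hX, hX', hstep⟩ := step ω p hY
  obtain ⟨m, hm, hlen⟩ := hn
  refine ⟨X, hX, ?_, hstep⟩
  have h1 : ∃ m' ≤ m + 2, Len m' (((cc p)⁻¹) ^ ε * Y) := by
    have hε' : ε = 0 ∨ ε = 1 := by omega
    rcases hε' with h | h
    · exact ⟨m, by omega, by rw [h, pow_zero, one_mul]; exact hlen⟩
    · exact ⟨2 + m, by omega, by rw [h, pow_one]; exact (Len_ccinv p).mul hlen⟩
  obtain ⟨m', hm', hlen'⟩ := h1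
  obtain ⟨n0, n1, h01, l0, l1⟩ := hlen'.sec (ω 0)
  refine ⟨n0 + n1, by omega, ?_⟩
  rw [hX']
  exact l0.mul l1

/-! ### The a priori bound -/

/-- `g = c_p^m r d e_p^δ` with `r` in `R (K p) SS N` and `d` a word of length at most `L` in
`a`, `e_q` -/
def St (p q : Fin 3) (N L : ℕ) (g : F) : Prop :=
  ∃ m : ℤ, ∃ r ∈ R (K p) SS N, ∃ d : List F, (∀ s ∈ d, s = ga ∨ s = ge q) ∧ d.length ≤ L ∧
    ∃ δ < 2, g = cc p ^ m * r * d.prod * ge p ^ δ

lemma St.mono {p q : Fin 3} {N N' L L' : ℕ} {g : F} (h : St p q N L g) (hN : N ≤ N')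
    (hL : L ≤ L') : St p q N' L' g := by
  obtain ⟨m, r, hr, d, hd, hdl, δ, hδ, e⟩ := h
  exact ⟨m, r, R_mono hN hr, d, hd, by omega, δ, hδ, e⟩

lemma St.mul_ge_p {p q : Fin 3} {N L : ℕ} {g : F} (h : St p q N L g) : St p q N L (g * ge p) := by
  obtain ⟨m, r, hr, d, hd, hdl, δ, hδ, e⟩ := h
  have hδ' : δ = 0 ∨ δ = 1 := by omega
  rcases hδ' with h | h
  · exact ⟨m, r, hr, d, hd, hdl, 1, by omega, by rw [e, h]; simp⟩
  · refine ⟨m, r, hr, d, hd, hdl, 0, by omega, ?_⟩
    rw [e, h, pow_one, pow_zero, mul_one, mul_assoc, ge_sq, mul_one]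

lemma St.mul_ge_q {p q : Fin 3} {N L : ℕ} {g : F} (h : St p q N L g) :
    St p q N (L + 1) (g * ge q) := by
  obtain ⟨m, r, hr, d, hd, hdl, δ, hδ, e⟩ := h
  refine ⟨m, r, hr, d ++ [ge q], ?_, by simp; omega, δ, hδ, ?_⟩
  · intro s hs
    rcases List.mem_append.1 hs with h | h
    · exact hd s h
    · right; simpa using h
  · rw [e, List.prod_append, List.prod_singleton]
    have hc : ge p ^ δ * ge q = ge q * ge p ^ δ :=
      ((show Commute (ge p) (ge q) from ge_comm p q).pow_left δ)
    rw [mul_assoc _ (ge p ^ δ), hc]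
    simp only [mul_assoc]

lemma St.mul_ga {p q : Fin 3} {N L : ℕ} {g : F} (h : St p q N L g) :
    St p q (N + 24 * L + 17) (L + 1) (g * ga) := by
  obtain ⟨m, r, hr, d, hd, hdl, δ, hδ, e⟩ := h
  have hd' : ∀ s ∈ d ++ [ga], s = ga ∨ s = ge q := by
    intro s hs
    rcases List.mem_append.1 hs with h | h
    · exact hd s h
    · left; simpa using h
  have hδ' : δ = 0 ∨ δ = 1 := by omega
  rcases hδ' with h | h
  · refine ⟨m, r, R_mono (by omega) hr, d ++ [ga], hd', by simp; omega, 0, by omega, ?_⟩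
    rw [e, h, List.prod_append, List.prod_singleton, pow_zero, mul_one, mul_one, mul_assoc]
  · have hdS : ∀ s ∈ d, s ∈ SS := by
      intro s hs
      rcases hd s hs with rfl | rfl
      · exact ga_mem
      · exact ge_mem q
    have hcm : (cc p)⁻¹ ∈ K p := (K p).inv_mem (cc_mem p)
    have h1 : ⁅d.prod, (cc p)⁻¹⁆ ∈ R (K p) SS (24 * L) :=
      R_mono (by omega) (comm_word d hdS hcm)
    have h2 := R_conj_K (R_mulS hr h1) (cc_mem p)
    refine ⟨m - 1, _, R_mono (by omega) h2, d ++ [ga], hd', by simp; omega, 1, by omega, ?_⟩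
    have h3 : ge p * ga = (cc p)⁻¹ * ga * ge p := by
      rw [cc_inv]
      simp only [mul_assoc]
      rw [ga_sq', ge_sq, mul_one]
    rw [e, h, List.prod_append, List.prod_singleton, pow_one]
    rw [mul_assoc _ (ge p) ga, h3, zpow_sub_one]
    simp only [commutatorElement_def]
    group

lemma St.mul_vv {p q : Fin 3} (hpq : p ≠ q) {N L : ℕ} {g : F} (h : St p q N L g)
    (v : Option (Fin 3)) : St p q N (L + 1) (g * vv v) := by
  cases v with
  | none => simpa [vv] using h.mono le_rfl (by omega : L ≤ L + 1)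
  | some i =>
    by_cases h1 : i = p
    · subst h1; exact h.mul_ge_p.mono le_rfl (by omega)
    · by_cases h2 : i = q
      · subst h2; exact h.mul_ge_q
      · have h3 : ge i = ge q * ge p := (ge_mul hpq.symm h2 h1).symm
        show St p q N (L + 1) (g * ge i)
        rw [h3, ← mul_assoc]
        exact h.mul_ge_q.mul_ge_p

lemma St_of_Len {p q : Fin 3} (hpq : p ≠ q) {n : ℕ} {g : F} (h : Len n g) :
    St p q (100 * n ^ 2) (2 * n + 1) g := by
  induction h with
  | base v =>
    have h0 : St p q 0 0 1 :=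
      ⟨0, 1, one_mem_R SS 0, [], by simp, by simp, 0, by omega, by simp⟩
    have := h0.mul_vv hpq v
    rw [one_mul] at this
    exact this.mono (by omega) (by omega)
  | @step n g v hg ih =>
    refine ((ih.mul_ga).mul_vv hpq v).mono ?_ (by omega)
    nlinarith

/-- the retraction of `F` killing `e_p` -/
def th (p : Fin 3) : F →* F :=
  liftF (fun s => match s with
    | none => ga
    | some i => if i = p then 1 else ge (p + 1))
    (by
      intro s
      cases s with
      | none => exact ga_sq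
      | some i =>
        show (if i = p then 1 else ge (p + 1)) * (if i = p then 1 else ge (p + 1)) = 1
        split <;> simp [ge_sq])
    (by
      show (if (0 : Fin 3) = p then 1 else ge (p + 1)) * (if (1 : Fin 3) = p then 1 else ge (p + 1)) *
        (if (2 : Fin 3) = p then 1 else ge (p + 1)) = 1
      fin_cases p <;> simp [ge_sq])

lemma th_K (p : Fin 3) {g : F} (hg : g ∈ K p) : th p g = 1 := by
  have : K p ≤ (th p).ker := by
    apply Subgroup.normalClosure_le_normal
    intro x hx
    rw [Set.mem_singleton_iff] at hx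
    subst hx
    show cc p ∈ (th p).ker
    rw [MonoidHom.mem_ker, cc, map_commutatorElement]
    have : th p (ge p) = 1 := by simp [th]
    rw [this]; simp
  exact this hg

/-- the character of `F` with `e_p ↦ -1`, `e_{p+1} ↦ 1`, `a ↦ 1` -/
def chi (p : Fin 3) : F →* Multiplicative (ZMod 2) :=
  liftF (fun s => match s with
    | none => 1
    | some i => if i = p + 1 then 1 else Multiplicative.ofAdd 1)
    (by
      intro s
      cases s with
      | none => rfl
      | some i =>
        show (if i = p + 1 then 1 else Multiplicative.ofAdd (1 : ZMod 2)) *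
          (if i = p + 1 then 1 else Multiplicative.ofAdd 1) = 1
        revert i p; decide)
    (by
      show (if (0 : Fin 3) = p + 1 then 1 else Multiplicative.ofAdd (1 : ZMod 2)) *
        (if (1 : Fin 3) = p + 1 then 1 else Multiplicative.ofAdd 1) *
        (if (2 : Fin 3) = p + 1 then 1 else Multiplicative.ofAdd 1) = 1
      revert p; decide)

lemma ge_not_mem (p : Fin 3) : ge p ∉ K p := by
  intro h
  have h1 : K p ≤ (chi p).ker := by
    apply Subgroup.normalClosure_le_normal
    intro x hx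
    rw [Set.mem_singleton_iff] at hx
    subst hx
    show cc p ∈ (chi p).ker
    rw [MonoidHom.mem_ker, cc, map_commutatorElement]
    exact commutatorElement_eq_one_iff_mul_comm.2 (mul_comm _ _)
  have h2 : chi p (ge p) = 1 := h1 h
  have h3 : chi p (ge p) = Multiplicative.ofAdd (1 : ZMod 2) := by
    have hp : p ≠ p + 1 := by clear h h1 h2; revert p; decide
    simp [chi, hp]
  rw [h3] at h2
  exact absurd h2 (by decide)

/-- a priori bound -/
lemma apriori (p : Fin 3) {n : ℕ} {Y : F} (hY : Y ∈ K p) (hn : LenLE n Y) :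
    ∃ ε < 2, ∃ Z ∈ R (K p) SS (100 * n ^ 2 + 20), Y = cc p ^ ε * Z := by
  obtain ⟨m, hm, hlen⟩ := hn
  have hpq : p ≠ p + 1 := by clear hY; revert p; decide
  have hst := St_of_Len hpq hlen
  obtain ⟨j, r, hr, d, hd, -, δ, hδ, e⟩ :=
    hst.mono (N' := 100 * n ^ 2) (by gcongr) le_rfl
  have hκ : cc p ^ j * r ∈ K p := (K p).mul_mem ((K p).zpow_mem (cc_mem p) _) (R_sub hr)
  have hd1 : d.prod = 1 := by
    have h1 := th_K p hY
    have h2 : th p (ge p) = 1 := by simp [th]
    rw [e, map_mul, map_mul, map_pow, h2, one_pow, mul_one, th_K p hκ, one_mul] at h1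
    have h3 : ∀ l : List F, (∀ s ∈ l, s = ga ∨ s = ge (p + 1)) → th p l.prod = l.prod := by
      intro l hl
      induction l with
      | nil => simp
      | cons s l ih =>
        rw [List.prod_cons, map_mul, ih (fun s' hs' => hl s' (List.mem_cons_of_mem _ hs'))]
        congr 1
        rcases hl s List.mem_cons_self with rfl | rfl
        · simp [th]
        · simp [th]
    rwa [h3 d hd] at h1
  have hδ0 : δ = 0 := by
    by_contra hne
    have : δ = 1 := by omega
    rw [hd1, this, mul_one, pow_one] at e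
    apply ge_not_mem p
    have h4 : ge p = (cc p ^ j * r)⁻¹ * Y := by rw [e]; group
    rw [h4]
    exact (K p).mul_mem ((K p).inv_mem hκ) hY
  rw [hd1, hδ0, pow_zero, mul_one, mul_one] at e
  obtain ⟨i, ε, hε, hi⟩ : ∃ (i : ℤ) (ε : ℕ), ε < 2 ∧ j = ε + (i + i) := by
    refine ⟨j / 2, (j % 2).toNat, by omega, by omega⟩
  have h5 : cc p ^ (i + i) = ⁅ga, cc p ^ (-i)⁆ := by
    have h6 : ga * cc p * ga⁻¹ = (cc p)⁻¹ := by
      rw [cc_inv, cc_eq, ga_inv]
      simp only [mul_assoc]
      rw [ga_sq']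
    rw [commutatorElement_def, ← conj_zpow, h6, zpow_add]
    group
  refine ⟨ε, hε, ⁅ga, cc p ^ (-i)⁆ * r, ?_, ?_⟩
  · have h7 := R_mulS (R_ga ((K p).zpow_mem (cc_mem p) (-i))) hr
    exact R_mono (by omega) h7
  · rw [e, hi, zpow_add, h5, zpow_natCast, mul_assoc]

end Pool.Agent.CW71
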