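import Mathlib
import Pool.Agent.CW71.Apr

set_option autoImplicit false

/-!
The uniform bound for all Grigorchuk groups.
-/

namespace Pool.Agent.CW71

open scoped commutatorElement
open Wr

/-- iteration of the recursion step -/
lemma iter (s : ℕ) : ∀ (m n : ℕ) (ω : ℕ → Fin 3) (p : Fin 3) (Y : F), Y ∈ K p → LenLE n Y →
    100 * (n + 3 * s) ^ 2 + 20 ≤ 2 ^ (s + m) → PP ω p (2 ^ m + 1200) Y := by
  induction s with
  | zero =>
    intro m n ω p Y hY hn h
    obtain ⟨ε, hε, Z, hZ, e⟩ := apriori p hY hn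
    refine ⟨ε, hε, Z, R_mono ?_ hZ, by rw [e]⟩
    simp only [mul_zero, add_zero, zero_add] at h
    omega
  | succ s ih =>
    intro m n ω p Y hY hn h
    obtain ⟨X, hX, hlen, hstep⟩ := step' ω p hY hn
    have h1 : PP (sh ω) (ω 0) (2 ^ (m + 1) + 1200) X := by
      apply ih (m + 1) (n + 3) (sh ω) (ω 0) X hX hlen
      have e1 : n + 3 + 3 * s = n + 3 * (s + 1) := by ring
      have e2 : s + (m + 1) = s + 1 + m := by ring
      rw [e1, e2]; exact h
    have h2 : 2 ^ (m + 1) + 1200 = (2 ^ m + 600) + (2 ^ m + 600) := by ring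
    rw [h2] at h1
    have h3 := hstep _ h1
    exact h3

lemma exp_bound (n : ℕ) : 100 * (n + 3 * (n + 20)) ^ 2 + 20 ≤ 2 ^ (n + 20) := by
  induction n with
  | zero => norm_num
  | succ n ih =>
    have e : 2 ^ (n + 1 + 20) = 2 * 2 ^ (n + 20) := by ring
    rw [e]
    have h1 : (n + 1 + 3 * (n + 1 + 20)) ^ 2 ≤ 2 * (n + 3 * (n + 20)) ^ 2 := by
      ring_nf
      nlinarith [sq_nonneg n]
    omega

/-- every element of `K p` acts as a short product -/
lemma main_K (ω : ℕ → Fin 3) (p : Fin 3) {Y : F} (hY : Y ∈ K p) : PP ω p 1201 Y := by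
  obtain ⟨n, hn⟩ := Len.exists Y
  have := iter (n + 20) 0 n ω p Y hY ⟨n, le_rfl, hn⟩ (by simpa using exp_bound n)
  simpa using this

/-! ### Products of commutators -/

lemma R_top {p : Fin 3} {S : List F} {M : ℕ} {x : F} (hx : x ∈ R (K p) S M) :
    x ∈ CK (⊤ : Subgroup F) (S.length + M) := by
  induction S generalizing x with
  | nil =>
    have hx' : x ∈ CK (K p) M := hx
    clear hx
    simp only [List.length_nil, zero_add]
    induction M generalizing x with
    | zero => exact hx'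
    | succ M ih =>
      obtain ⟨a, _, b, _, y, hy, rfl⟩ := hx'
      exact ⟨a, Subgroup.mem_top _, b, Subgroup.mem_top _, y, ih hy, rfl⟩
  | cons s S ih =>
    obtain ⟨m, _, y, hy, rfl⟩ := hx
    have h1 := CK_mul (comm_mem_CK (K := (⊤ : Subgroup F)) (Subgroup.mem_top s)
      (Subgroup.mem_top m)) (ih hy)
    refine CK_mono ?_ h1
    simp only [List.length_cons]; omega

lemma PP_top {ω : ℕ → Fin 3} {p : Fin 3} {M : ℕ} {Y : F} (h : PP ω p M Y) :
    ∃ Z ∈ CK (⊤ : Subgroup F) (M + 5), pi ω Y = pi ω Z := by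
  obtain ⟨ε, hε, Z, hZ, e⟩ := h
  refine ⟨cc p ^ ε * Z, ?_, e⟩
  have h1 : cc p ^ ε ∈ CK (⊤ : Subgroup F) 1 := by
    have hε' : ε = 0 ∨ ε = 1 := by omega
    rcases hε' with h | h
    · rw [h, pow_zero]; exact one_mem_CK 1
    · rw [h, pow_one]; exact comm_mem_CK (Subgroup.mem_top _) (Subgroup.mem_top _)
  refine CK_mono ?_ (CK_mul h1 (R_top hZ))
  rw [SS_length]; omega

lemma comm_le : commutator F ≤ K 0 ⊔ K 1 := by
  set N : Subgroup F := K 0 ⊔ K 1 with hN
  have hNn : N.Normal := inferInstance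
  set q : F →* F ⧸ N := QuotientGroup.mk' N with hq
  have c01 : ∀ p : Fin 3, (p = 0 ∨ p = 1) → ∀ g, q g * q (ge p) = q (ge p) * q g := by
    intro p hp g
    have h1 : ⁅g, ge p⁆ ∈ N := by
      rcases hp with rfl | rfl
      · exact (le_sup_left : K 0 ≤ N) (comm_ge_mem 0 g)
      · exact (le_sup_right : K 1 ≤ N) (comm_ge_mem 1 g)
    have h2 : q ⁅g, ge p⁆ = 1 := (QuotientGroup.eq_one_iff _).2 h1
    rw [map_commutatorElement] at h2
    exact commutatorElement_eq_one_iff_mul_comm.1 h2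
  have ce : ∀ (i : Fin 3) g, q g * q (ge i) = q (ge i) * q g := by
    intro i g
    have hi : i = 0 ∨ i = 1 ∨ i = 2 := by revert i; decide
    rcases hi with rfl | rfl | rfl
    · exact c01 0 (Or.inl rfl) g
    · exact c01 1 (Or.inr rfl) g
    · rw [← ge_01, map_mul, ← mul_assoc, c01 0 (Or.inl rfl) g, mul_assoc, c01 1 (Or.inr rfl) g,
        ← mul_assoc]
  have ca : ∀ g, q g * q ga = q ga * q g := by
    intro g
    refine F_ind_left (fun g => q g * q ga = q ga * q g) ?_ ?_ ?_ g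
    · simp
    · intro g hg
      rw [map_mul, mul_assoc, hg]
    · intro i g hg
      rw [map_mul, mul_assoc, hg, ← mul_assoc, ← mul_assoc, ← ce i ga]
  have call : ∀ g h, q g * q h = q h * q g := by
    intro g h
    refine F_ind_left (fun h => q g * q h = q h * q g) ?_ ?_ ?_ h
    · simp
    · intro h hh
      rw [map_mul, ← mul_assoc, ca g, mul_assoc, hh, mul_assoc]
    · intro i h hh
      rw [map_mul, ← mul_assoc, ce i g, mul_assoc, hh, mul_assoc]
  rw [commutator_def, Subgroup.commutator_le]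
  intro g _ h _
  apply (QuotientGroup.eq_one_iff (N := N) _).1
  show q ⁅g, h⁆ = 1
  rw [map_commutatorElement]
  exact commutatorElement_eq_one_iff_mul_comm.2 (call g h)

/-- the uniform bound for the images of the derived subgroup -/
theorem main_F (ω : ℕ → Fin 3) {y : F} (hy : y ∈ commutator F) :
    ∃ z ∈ CK (⊤ : Subgroup F) 2412, pi ω y = pi ω z := by
  have h1 := comm_le hy
  obtain ⟨a, ha, b, hb, rfl⟩ := Subgroup.mem_sup_of_normal_right.1 h1
  obtain ⟨za, hza, ea⟩ := PP_top (main_K ω 0 ha)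
  obtain ⟨zb, hzb, eb⟩ := PP_top (main_K ω 1 hb)
  exact ⟨za * zb, CK_mul hza hzb, by rw [map_mul, map_mul, ea, eb]⟩

end Pool.Agent.CW71
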